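import Pool.Agent.W749.JI.Stm
import Pool.Agent.W425.MM.Defs

/-!
# Project NI: the motivic monodromy conjecture at the origin for nondegenerate ideals: definitions
-/

set_option autoImplicit false

namespace Pool.Agent.W423.NI

open MvPolynomial
open Pool.Agent.W428.MOT Pool.Agent.W749.NM Pool.Agent.W749.JI
open Pool.Agent.W426.SM (AffInd gord ford IsRay face ff)

/-- `m_j` lies on the face of the Newton polytope of `f_(π j)` where the linear form `w` is
minimal. -/
def onFaceI {n k r : ℕ} (π : Fin k → Fin r) (m : Fin k → Fin n → ℕ) (w : Fin n → ℝ) (j : Fin k) :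
    Prop :=
  ∀ j', π j' = π j → ∑ v, w v * (m j v : ℝ) ≤ ∑ v, w v * (m j' v : ℝ)

open Classical in
/-- The polynomials `f_i = ∑_{π j = i} c_j x ^ (m_j)` are nondegenerate: for every linear form `w`
and every nonempty set `Q` of indices, the face polynomials of the `f_i`, `i ∈ Q`, have no common
zero in the torus at which their differentials are linearly dependent (with all coefficients `y_i`
nonzero; since `Q` is arbitrary this is the same as linearly dependent). -/
def NondegI {n k r : ℕ} (π : Fin k → Fin r) (m : Fin k → Fin n → ℕ) (c : Fin k → ℂ) : Prop :=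
  ∀ (w : Fin n → ℝ) (Q : Finset (Fin r)) (x : Fin n → ℂ) (y : Fin r → ℂ), Q.Nonempty →
    (∀ v, x v ≠ 0) → (∀ i ∈ Q, y i ≠ 0) →
    (∀ i ∈ Q, (∑ j, if π j = i ∧ onFaceI π m w j then c j * ∏ v, x v ^ m j v else 0) = 0) →
    ¬ ∀ v, ∑ i ∈ Q, y i *
      (∑ j, if π j = i ∧ onFaceI π m w j then c j * (m j v : ℂ) * ∏ v, x v ^ m j v else 0) = 0

/-- the differentials of the initial forms are independent at the common zeros -/
def NonT {K : Type} [Field K] {n k r : ℕ} (π : Fin k → Fin r) (m : Fin k → Fin n → ℕ)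
    (c : Fin k → K) : Prop :=
  ∀ (u : Fin n → ℕ) (N : ℕ) (z : Fin n → AlgebraicClosure K),
    (∀ v, (∃ j ∈ tau π m u N, m j v ≠ 0) → z v ≠ 0) →
    (∀ i ∈ (tau π m u N).image π, gbar m (cI π (cb c) i) (tau π m u N) z = 0) →
    ∀ l : Fin r → AlgebraicClosure K, (∀ i, i ∉ (tau π m u N).image π → l i = 0) →
      (∀ v, ∑ i, l i * dgbar m (cI π (cb c) i) (tau π m u N) v z = 0) → ∀ i, l i = 0

/-- The candidates which occur in the zeta function of the ideal: if `a` spans a ray of the normal
fan of the Newton polyhedron of the exponents `(m_j, e_(π j))`, and each `f_i` with `a_(n+i) ≠ 0`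
has at least two monomials on the face of `a`, then `-|a| / N_a` is an integer, or it agrees modulo
`ℤ` with the value of an `a'` whose face contains a simplex which is not a `B1`-simplex. -/
def NoB1I {n k r : ℕ} (π : Fin k → Fin r) (m : Fin k → Fin n → ℕ) : Prop :=
  ∀ a : Fin (n + r) → ℕ, IsRay (cay π m) a → 0 < gord (cay π m) a →
    (∀ i : Fin r, a (Fin.natAdd n i) ≠ 0 →
      2 ≤ ((amin (cay π m) a).filter fun j => π j = i).card) →
    gord (cay π m) a ∣ ∑ i, a i ∨
    ∃ a' : Fin (n + r) → ℕ, 0 < gord (cay π m) a' ∧ Pool.Agent.W425.MM.NonB (cay π m) True a' ∧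
      ∃ z : ℤ, ((∑ i, a i : ℕ) : ℚ) / gord (cay π m) a =
        ((∑ i, a' i : ℕ) : ℚ) / gord (cay π m) a' + z

/-- the ideal is unmixed: all the `f_i` have the same exponents -/
def SameExp {n k r : ℕ} (π : Fin k → Fin r) (m : Fin k → Fin n → ℕ) : Prop :=
  ∀ (i : Fin r) (j : Fin k), ∃ j', π j' = i ∧ m j' = m j

/-- Part CAY: the polynomial `∑ y_i f_i` is nondegenerate. -/
def TaskCay : Prop := ∀ {n k r : ℕ} (π : Fin k → Fin r) (m : Fin k → Fin n → ℕ) (c : Fin k → ℂ),
  0 < k → NondegI π m c → Pool.Agent.W425.ND.Nondeg (cay π m) c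

/-- Part NONT: nondegeneracy in terms of `NonT`. -/
def TaskNonT : Prop := ∀ {n k r : ℕ} (π : Fin k → Fin r) (m : Fin k → Fin n → ℕ) (c : Fin k → ℂ),
  NondegI π m c → NonT π m c

/-- Part UNM: if all `f_i` have the same exponents and no exponent is `1`, then `NoB1I` holds. -/
def TaskUnm : Prop := ∀ {n k r : ℕ} (π : Fin k → Fin r) (m : Fin k → Fin n → ℕ),
  0 < k → Function.Surjective π → SameExp π m → (∀ j v, m j v ≠ 1) → NoB1I π m

end Pool.Agent.W423.NI
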