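import Pool.Agent.W423.NI.SumI
import Pool.Agent.W902.JIFini

/-!
# Project NI, part FIN: rationality of the zeta function of a nondegenerate ideal (after
`Pool.Agent.W902.JIFini`)
-/

set_option autoImplicit false

namespace Pool.Agent.W423.NI.Fin

open Pool.Agent.W428.MOT
open Pool.Agent.W426.SM (AffInd gord ford IsRay face)
open Pool.Agent.W749.JI Pool.Agent.W902.JIFini Pool.Agent.W423.NI
open Pool.Agent.W63.MTFin
open Pool.Agent.W349.NMFin (chi_empty amin_nonempty)

/-- the relevant rays belong to `G` -/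
def RayIn {n k r : ℕ} (π : Fin k → Fin r) (m : Fin k → Fin n → ℕ) (G : Set (ℤ × ℤ)) : Prop :=
  ∀ a : Fin (n + r) → ℕ, IsRay (cay π m) a → 0 < gord (cay π m) a →
    (∀ i : Fin r, a (Fin.natAdd n i) ≠ 0 →
      2 ≤ ((amin (cay π m) a).filter fun j => π j = i).card) →
    (-((∑ i, a i : ℕ) : ℤ), (gord (cay π m) a : ℤ)) ∈ G

/-- the coefficients of the vertices do not vanish -/
def Vert {K : Type} [Field K] {n k r : ℕ} (π : Fin k → Fin r) (m : Fin k → Fin n → ℕ)
    (c : Fin k → K) : Prop :=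
  ∀ (u : Fin n → ℕ) (N : ℕ) (j : Fin k), j ∈ tau π m u N →
    (∀ j' ∈ tau π m u N, π j' = π j → j' = j) → c j ≠ 0

/-- the cells of `m` -/
theorem mem_low (h5 : S_RAT2) {n k r : ℕ} (π : Fin k → Fin r)
    (m : Fin k → Fin n → ℕ) (hk : 0 < k) (G : Set (ℤ × ℤ)) (hG : RayIn π m G)
    (σ : Finset (Fin k)) :
    PowerSeries.map (ev ℂ) (PowerSeries.mk fun M => cp (fun _ => 0) m 1 Finset.univ σ M M) ∈
      ratRing ℂ G := by
  by_cases hcell : ∃ u : Fin n → ℕ, Adm Finset.univ u ∧ amin m u = σ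
  · obtain ⟨u, hu, rfl⟩ := hcell
    obtain ⟨l, P, hl, hP⟩ := h5 (fun _ => 0) m 1 Finset.univ (amin m u) hk one_pos
    refine rat_mem _ (ford (fun _ => 0) m 1) P l (fun a ha => ?_) hP
    obtain ⟨ha1, ha2, -, ha4⟩ := hl a ha
    refine ⟨ha2, ?_⟩
    have hs : ∀ j, ∑ i, (Fin.append a 0 : Fin (n + r) → ℕ) i * cay π m j i =
        ∑ i, a i * m j i + 0 := by
      intro j
      rw [cay_sum]
      simp [Fin.append_left, Fin.append_right]
    have hg := gord_add hk m (cay π m) a (Fin.append a 0) 0 hs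
    have := hG (Fin.append a 0) (ray_lift π hk m a ha1)
      (by rw [hg, add_zero, ← ford_one]; exact ha2)
      (fun i hi => by simp [Fin.append_right] at hi)
    rw [hg, add_zero] at this
    rw [ford_one]
    have h8 : ∑ i, (Fin.append a 0 : Fin (n + r) → ℕ) i = ∑ i, a i := by
      rw [Fin.sum_univ_add]
      simp [Fin.append_left, Fin.append_right]
    rw [h8] at this
    exact this
  · push Not at hcell
    have : (PowerSeries.mk fun M => cp (fun _ => 0) m 1 Finset.univ σ M M) = 0 := by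
      ext1 M
      rw [PowerSeries.coeff_mk, cp_zero' _ m 1 _ σ hcell, map_zero]
    rw [this, map_zero]
    exact (ratRing ℂ _).zero_mem

/-- the cells of `cay π m` -/
theorem mem_cay (h5 : S_RAT2) {n k r : ℕ} (π : Fin k → Fin r)
    (m : Fin k → Fin n → ℕ) (hk : 0 < k) (G : Set (ℤ × ℤ)) (hG : RayIn π m G)
    (τ : Finset (Fin k)) (Q' : Finset (Fin r))
    (hQ : ∀ i ∈ Q', 2 ≤ (τ.filter fun j => π j = i).card) :
    PowerSeries.map (ev ℂ) (PowerSeries.mk fun M =>
        cp (fun _ => 0) (cay π m) 1 (JQ n Q') τ M M) ∈ ratRing ℂ G := by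
  by_cases hcell : ∃ u : Fin (n + r) → ℕ, Adm (JQ n Q') u ∧ amin (cay π m) u = τ
  · obtain ⟨u, hu, rfl⟩ := hcell
    obtain ⟨l, P, hl, hP⟩ := h5 (fun _ => 0) (cay π m) 1 (JQ n Q') (amin (cay π m) u) hk one_pos
    refine rat_mem _ (ford (fun _ => 0) (cay π m) 1) P l (fun a ha => ?_) hP
    obtain ⟨ha1, ha2, ha3, ha4⟩ := hl a ha
    refine ⟨ha2, ?_⟩
    rw [ford_one] at ha2
    have := hG a ha1 ha2
      (fun i hi => by
        have h9 := ha3 _ hi
        simp only [JQ, Finset.mem_union, Finset.mem_map, Finset.mem_univ, true_and] at h9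
        rcases h9 with ⟨v, hv⟩ | ⟨i', hi', he⟩
        · exfalso
          have h10 := congrArg Fin.val hv
          simp at h10
          have := v.2
          omega
        · have h10 : i' = i := Fin.natAdd_injective r n (by simpa using he)
          refine le_trans (hQ i (by rwa [← h10])) (Finset.card_le_card ?_)
          exact Finset.filter_subset_filter _ ha4)
    rw [ford_one]
    exact this
  · push Not at hcell
    have : (PowerSeries.mk fun M => cp (fun _ => 0) (cay π m) 1 (JQ n Q') τ M M) = 0 := by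
      ext1 M
      rw [PowerSeries.coeff_mk, cp_zero' _ (cay π m) 1 _ τ hcell, map_zero]
    rw [this, map_zero]
    exact (ratRing ℂ _).zero_mem

/-- one monomial has no zero in the torus -/
theorem BI_empty {K : Type} [Field K] {n k r : ℕ} (π : Fin k → Fin r) (m : Fin k → Fin n → ℕ)
    (c : Fin k → K) (hc : Vert π m c) (Q : Finset (Fin r)) (u : Fin n → ℕ) (N : ℕ) (i : Fin r)
    (hi : i ∈ Q) (hτ : ((tau π m u N).filter fun j => π j = i).card = 1) :
    BI π m c Q (tau π m u N) = ∅ := by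
  obtain ⟨j, hj⟩ := Finset.card_eq_one.mp hτ
  have hjm : j ∈ tau π m u N ∧ π j = i := by
    have : j ∈ (tau π m u N).filter fun j => π j = i := by rw [hj]; exact Finset.mem_singleton_self j
    exact ⟨(Finset.mem_filter.1 this).1, (Finset.mem_filter.1 this).2⟩
  ext z
  simp only [Set.mem_empty_iff_false, iff_false]
  rintro ⟨h1, -, h3⟩
  have h4 := h3 i hi
  have h5 : gbar m (cI π (cb c) i) (tau π m u N) z =
      ∑ j ∈ (tau π m u N).filter (fun j => π j = i), cb c j * ∏ v, z v ^ m j v := by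
    unfold gbar
    rw [Finset.sum_filter]
    refine Finset.sum_congr rfl fun j _ => ?_
    unfold cI
    split_ifs <;> simp
  rw [h5, hj, Finset.sum_singleton] at h4
  rcases mul_eq_zero.mp h4 with h | h
  · refine hc u N j hjm.1 (fun j' hj' hp => ?_) (by simpa [cb] using h)
    have : j' ∈ (tau π m u N).filter fun j => π j = i :=
      Finset.mem_filter.2 ⟨hj', by rw [hp, hjm.2]⟩
    rw [hj] at this
    exact Finset.mem_singleton.1 this
  · obtain ⟨v, -, hv⟩ := Finset.prod_eq_zero_iff.mp h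
    exact h1 v (by
      by_contra hne
      exact pow_ne_zero _ hne hv)

/-- the differences of the counting polynomials -/
theorem mem_diff (h3 : S_CPI) (h4 : S_CPE) (h5 : S_RAT2)
    (h7 : Pool.Agent.W428.MOT.S_CP1) {n k r : ℕ} (π : Fin k → Fin r) (m : Fin k → Fin n → ℕ)
    (c : Fin k → ℂ) (hk : 0 < k) (hπ : Function.Surjective π) (hc : Vert π m c)
    (G : Set (ℤ × ℤ)) (hG : RayIn π m G) (χ : Set (Pt ℂ (Fin n)) → MK ℂ)
    (hχ : χ ∅ = 0) (Q : Finset (Fin r)) (τ : Finset (Fin k)) :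
    ∃ E ∈ ratRing ℂ G, ∀ N, 1 ≤ N → PowerSeries.coeff N E =
      χ (BI π m c Q τ) * (ev ℂ (cpI π m Q τ N) - ev ℂ (cpI π m Q τ (N + 1))) := by
  classical
  by_cases hQτ : τ.image π = Q
  swap
  · refine ⟨0, (ratRing ℂ _).zero_mem, fun N _ => ?_⟩
    rw [cpI_zero π m hπ Q τ hQτ, cpI_zero π m hπ Q τ hQτ, sub_self, mul_zero, map_zero]
  rcases τ.eq_empty_or_nonempty with rfl | hτ
  · -- the empty type
    have hQ : Q = ∅ := by rw [← hQτ]; rfl
    subst hQ
    refine ⟨PowerSeries.C (χ (BI π m c ∅ ∅)) * ∑ σ : Finset (Fin k),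
      PowerSeries.C (ev ℂ ((1 - Polynomial.X) ^ (n - (fr m σ).card))) *
        PowerSeries.map (ev ℂ) (PowerSeries.mk fun M => cp (fun _ => 0) m 1 Finset.univ σ M M),
      (ratRing ℂ _).mul_mem (C_mem _ _) ((ratRing ℂ _).sum_mem fun σ _ =>
        (ratRing ℂ _).mul_mem (C_mem _ _) (mem_low h5 π m hk G hG σ)),
      fun N _ => ?_⟩
    have e1 := h4 π m hπ hk N
    have e2 := h4 π m hπ hk (N + 1)
    rw [Finset.sum_range_succ] at e2
    have e3 : cpI π m ∅ ∅ N - cpI π m ∅ ∅ (N + 1) = ∑ σ : Finset (Fin k),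
        (1 - Polynomial.X) ^ (n - (fr m σ).card) *
          cp (fun _ => 0) m 1 Finset.univ σ N N := by
      linear_combination e1 - e2
    rw [← map_sub, e3, PowerSeries.coeff_C_mul, map_sum, map_sum]
    congr 1
    refine Finset.sum_congr rfl fun σ _ => ?_
    rw [PowerSeries.coeff_C_mul, PowerSeries.coeff_map, PowerSeries.coeff_mk, map_mul]
  · by_cases hcell : ∃ (u : Fin n → ℕ) (N : ℕ), tau π m u N = τ
    swap
    · push Not at hcell
      have h0 : ∀ N, cpI π m Q τ N = 0 := by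
        intro N
        unfold cpI
        refine Finset.sum_eq_zero fun u hu => ?_
        rw [Finset.mem_filter] at hu
        exact absurd hu.2.2.2 (hcell u N)
      refine ⟨0, (ratRing ℂ _).zero_mem, fun N _ => ?_⟩
      rw [h0, h0, sub_self, mul_zero, map_zero]
    by_cases hcard : ∀ i ∈ Q, 2 ≤ (τ.filter fun j => π j = i).card
    · -- the main case
      set H : PowerSeries (MK ℂ) := ∑ Q' ∈ Q.powerset, PowerSeries.map (ev ℂ)
        (PowerSeries.mk fun M => cp (fun _ => 0) (cay π m) 1 (JQ n Q') τ M M) with hH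
      have hHm : H ∈ ratRing ℂ G := (ratRing ℂ _).sum_mem fun Q' hQ' =>
        mem_cay h5 π m hk G hG τ Q' fun i hi =>
          hcard i (Finset.mem_powerset.1 hQ' hi)
      have hHc : ∀ M, PowerSeries.coeff M H = ev ℂ (cpI π m Q τ (M + 1)) := by
        intro M
        rw [← hQτ, h3 π m hπ τ hτ M, hH, ← hQτ, map_sum, map_sum]
        refine Finset.sum_congr rfl fun Q' _ => ?_
        rw [PowerSeries.coeff_map, PowerSeries.coeff_mk,
          h7 (fun _ => 0) (cay π m) 1 (JQ n Q') τ hk one_pos (M + 1) M (Nat.le_succ M)]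
      refine ⟨PowerSeries.C (χ (BI π m c Q τ)) * ((PowerSeries.X - 1) * H),
        (ratRing ℂ _).mul_mem (C_mem _ _) ((ratRing ℂ _).mul_mem
          ((ratRing ℂ _).sub_mem (X_mem _) (ratRing ℂ _).one_mem) hHm), fun N hN => ?_⟩
      obtain ⟨M, rfl⟩ : ∃ M, N = M + 1 := ⟨N - 1, by omega⟩
      rw [PowerSeries.coeff_C_mul, sub_mul, one_mul, map_sub, PowerSeries.coeff_succ_X_mul,
        hHc, hHc]
    · -- a single monomial
      push Not at hcard
      obtain ⟨i, hi, hi2⟩ := hcard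
      obtain ⟨u, N₀, rfl⟩ := hcell
      have h1 : 0 < ((tau π m u N₀).filter fun j => π j = i).card := by
        rw [← hQτ] at hi
        obtain ⟨j, hj, hj'⟩ := Finset.mem_image.1 hi
        exact Finset.card_pos.2 ⟨j, Finset.mem_filter.2 ⟨hj, hj'⟩⟩
      refine ⟨0, (ratRing ℂ _).zero_mem, fun N _ => ?_⟩
      rw [BI_empty π m c hc Q u N₀ i hi (by omega), hχ, zero_mul, map_zero]

/-- **The zeta function of a nondegenerate ideal.** -/
theorem main (h0 : Pool.Agent.W428.MOT.S_K0) (h1 : S_JetI) (h21 : S_Part) (h22 : S_CondI)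
    (h01 : S_Free) (h02 : S_Tay) (h03 : S_Lin) (h3 : S_CPI)
    (h4 : S_CPE) (h5 : S_RAT2) (h7 : Pool.Agent.W428.MOT.S_CP1)
    {n k r : ℕ} (π : Fin k → Fin r) (m : Fin k → Fin n → ℕ) (c : Fin k → ℂ) (hr : 0 < r)
    (hπ : Function.Surjective π) (hT : NonT π m c) (hc : Vert π m c)
    (G : Set (ℤ × ℤ)) (hG : RayIn π m G) :
    ∃ S : Finset (ℤ × ℤ), (∀ p ∈ S, p ∈ G) ∧ zetaI (fam π m c) ∈ ratRing ℂ S := by
  classical
  have hk : 0 < k := by
    obtain ⟨j, -⟩ := hπ ⟨0, hr⟩
    exact lt_of_le_of_lt (Nat.zero_le _) j.2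
  obtain ⟨M₀, hM₀⟩ := h0 ℂ
  set M := mapMeas M₀ (algebraMap (K0 ℂ) (MK ℂ)) with hM
  set Y : MK ℂ := (((Lu ℂ)⁻¹ : (MK ℂ)ˣ) : MK ℂ) with hY
  have hL : M.L * Y = 1 := L_mul hM₀
  have hsum := SumI.main h21 h22 h01 h02 h03 M π m c hπ hT Y hL
  apply fin_of_mem G
  choose E hE hEc using fun Q τ => mem_diff h3 h4 h5 h7 π m c hk hπ hc G hG
    (fun S => M.χ _ S) (chi_empty M _) Q τ
  set F : PowerSeries (MK ℂ) := ∑ Q : Finset (Fin r), ∑ τ : Finset (Fin k),
    PowerSeries.C (Y ^ (n - (fr m τ).card)) * E Q τ with hF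
  have hFmem : F ∈ ratRing ℂ G := (ratRing ℂ _).sum_mem fun Q _ =>
    (ratRing ℂ _).sum_mem fun τ _ => (ratRing ℂ _).mul_mem (C_mem _ _) (hE Q τ)
  have hz : zetaI (fam π m c) = F - PowerSeries.C (PowerSeries.coeff 0 F) := by
    rw [zetaI]
    ext N
    by_cases hN : N = 0
    · subst hN
      rw [PowerSeries.coeff_C_mul, PowerSeries.coeff_mk, if_pos rfl, map_sub,
        PowerSeries.coeff_C, if_pos rfl, sub_self, mul_zero]
    · rw [PowerSeries.coeff_C_mul, PowerSeries.coeff_mk, if_neg hN, map_sub,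
        PowerSeries.coeff_C, if_neg hN, sub_zero]
      have hN1 : 1 ≤ N := by omega
      have e1 : algebraMap (K0 ℂ) (MK ℂ) (cls (Fin n × Fin (N + 1)) (JetI (fam π m c) N)) *
          (((Lu ℂ) ^ (-((n * N : ℕ) : ℤ)) : (MK ℂ)ˣ) : MK ℂ) =
          M.χ _ (JetI (fam π m c) N) * Y ^ (n * N) := by
        rw [zpow_neg, zpow_natCast, ← inv_pow, Units.val_pow_eq_pow_val, ← hM₀]
        rfl
      have e2 : (((Lu ℂ) ^ (-(n : ℤ)) : (MK ℂ)ˣ) : MK ℂ) = Y ^ n := by
        rw [zpow_neg, zpow_natCast, ← inv_pow, Units.val_pow_eq_pow_val]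
      rw [e1, e2]
      have e3 := h1 M (fam π m c) N hN1
      have e4 : Y ^ n * (M.χ _ (JetI (fam π m c) N) * Y ^ (n * N)) =
          M.χ _ (GE (fam π m c) N) * Y ^ (n * (2 * N + 2)) -
            M.χ _ (GE (fam π m c) (N + 1)) * Y ^ (n * (2 * (N + 1) + 2)) := by
        have hLp : ∀ a : ℕ, M.L ^ a * Y ^ a = 1 := fun a => by rw [← mul_pow, hL, one_pow]
        have f1 : Y ^ n * Y ^ (n * N) = M.L ^ (n * (N + 3)) * Y ^ (n * (2 * (N + 1) + 2)) := by
          have : n * (2 * (N + 1) + 2) = n * (N + 3) + (n + n * N) := by ring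
          rw [this, pow_add, pow_add, ← mul_assoc, hLp, one_mul]
        have f2 : Y ^ (n * (2 * N + 2)) = M.L ^ (2 * n) * Y ^ (n * (2 * (N + 1) + 2)) := by
          have : n * (2 * (N + 1) + 2) = 2 * n + n * (2 * N + 2) := by ring
          rw [this, pow_add, ← mul_assoc, hLp, one_mul]
        rw [f2]
        calc Y ^ n * (M.χ _ (JetI (fam π m c) N) * Y ^ (n * N)) =
            M.χ _ (JetI (fam π m c) N) * (Y ^ n * Y ^ (n * N)) := by ring
          _ = _ := by
            rw [f1]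
            linear_combination Y ^ (n * (2 * (N + 1) + 2)) * e3
      rw [e4, hsum N hN1, hsum (N + 1) (by omega), hF, map_sum, ← Finset.sum_sub_distrib]
      refine Finset.sum_congr rfl fun Q _ => ?_
      rw [map_sum, ← Finset.sum_sub_distrib]
      refine Finset.sum_congr rfl fun τ _ => ?_
      rw [PowerSeries.coeff_C_mul, hEc Q τ N hN1]
      have e5 : ∀ P : Polynomial ℤ, ev ℂ P = Polynomial.eval₂ (Int.castRingHom (MK ℂ)) Y P :=
        fun P => rfl
      rw [e5, e5]
      ring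
  rw [hz]
  exact (ratRing ℂ _).sub_mem hFmem (C_mem _ _)

end Pool.Agent.W423.NI.Fin
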