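import Pool.Agent.W423.NI.Defs
import Pool.Agent.W749.JI.Final
import Pool.Agent.W425.MM.Fin

/-!
# Project NI, part ROOT: roots of the local Bernstein-Sato polynomial of a nondegenerate ideal
-/

set_option autoImplicit false

namespace Pool.Agent.W423.NI.Root

open MvPolynomial
open Pool.Agent.W428.MOT Pool.Agent.W749.NM Pool.Agent.W749.JI Pool.Agent.W423.NI
open Pool.Agent.W426.SM (AffInd gord ford IsRay face ff)
open Pool.Agent.W425.SG Pool.Agent.W422.GC Pool.Agent.W425.ND Pool.Agent.W425.MM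

theorem unitEq {n k r : ℕ} (π : Fin k → Fin r) (m : Fin k → Fin n → ℕ) (c : Fin k → ℂ)
    (b : Polynomial ℂ) (hb : IsLocalBIdeal (fam π m c) b) :
    UnitEq True (spa (cay π m) c) ((Polynomial.X + 1) * b) := by
  obtain ⟨a, P, ha, hP⟩ := sBtoG (fam π m c) b hb
  rw [RootG.gpol_eq] at hP
  have h1 : spa (cay π m) c = sp (fun _ => 0) (cay π m) c 1 := spa_eq_sp _ _
  rw [h1]
  exact ⟨a, P, ha, fun h => absurd trivial h, hP⟩

theorem root {n k r : ℕ} (π : Fin k → Fin r) (m : Fin k → Fin n → ℕ) (c : Fin k → ℂ)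
    (hk : 0 < k) (hv : Function.Injective (cay π m)) (hnd : Nondeg (cay π m) c)
    (hB : NoB1I π m) (a : Fin (n + r) → ℕ) (ha : IsRay (cay π m) a)
    (hg : 0 < gord (cay π m) a)
    (h2 : ∀ i : Fin r, a (Fin.natAdd n i) ≠ 0 →
      2 ≤ ((amin (cay π m) a).filter fun j => π j = i).card) :
    (gord (cay π m) a : ℤ) ∣ (-((∑ i, a i : ℕ) : ℤ)) ∨
      ∀ b : Polynomial ℂ, IsLocalBIdeal (fam π m c) b → ∃ i : ℤ,
        b.eval (((-((∑ i, a i : ℕ) : ℤ) : ℤ) : ℂ) / ((gord (cay π m) a : ℤ) : ℂ) - i) = 0 := by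
  have : NeZero k := ⟨hk.ne'⟩
  by_cases hdiv : gord (cay π m) a ∣ ∑ i, a i
  · left
    rw [Int.dvd_neg]
    exact_mod_cast hdiv
  · right
    intro b hb
    obtain ⟨a', hg', hN, z, hz⟩ := (hB a ha hg h2).resolve_left hdiv
    obtain ⟨K, hK⟩ := relAll parts True (cay π m) c hv hnd _ (unitEq π m c b hb)
    have hgC : ((gord (cay π m) a : ℕ) : ℂ) ≠ 0 := by exact_mod_cast hg.ne'
    have hg'C : ((gord (cay π m) a' : ℕ) : ℂ) ≠ 0 := by exact_mod_cast hg'.ne'
    have h1 := a5 (cay π m) True _ hK a' hg' hN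
    rw [prodb_eval, Finset.prod_eq_zero_iff] at h1
    obtain ⟨i, -, hi⟩ := h1
    have h2 : ((∑ i, a i : ℕ) : ℂ) / gord (cay π m) a =
        ((∑ i, a' i : ℕ) : ℂ) / gord (cay π m) a' + z := by
      have := congrArg (fun q : ℚ => (q : ℂ)) hz
      push_cast at this ⊢
      exact this
    have h3 : ((-((∑ i, a i : ℕ) : ℤ) : ℤ) : ℂ) / ((gord (cay π m) a : ℤ) : ℂ) -
        (((i : ℤ) - z : ℤ) : ℂ) = -(((∑ i, a' i : ℕ) : ℂ) / gord (cay π m) a') - i := by
      push_cast at h2 ⊢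
      rw [neg_div, h2]
      ring
    rw [Polynomial.eval_mul, mul_eq_zero] at hi
    rcases hi with hi | hi
    · exfalso
      apply hdiv
      rw [Polynomial.eval_add, Polynomial.eval_X, Polynomial.eval_one] at hi
      -- the candidate is an integer
      have h4 : ((∑ i, a i : ℕ) : ℂ) / gord (cay π m) a = ((1 - (i : ℤ) + z : ℤ) : ℂ) := by
        have h7 : ((∑ i, a' i : ℕ) : ℂ) / gord (cay π m) a' = 1 - (i : ℂ) := by
          linear_combination -hi
        rw [h2, h7]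
        push_cast
        ring
      rw [div_eq_iff hgC] at h4
      have h5 : ((∑ i, a i : ℕ) : ℤ) = (1 - (i : ℤ) + z) * (gord (cay π m) a : ℤ) := by
        exact_mod_cast h4
      have h6 : (gord (cay π m) a : ℤ) ∣ ((∑ i, a i : ℕ) : ℤ) := by
        rw [h5]
        exact Dvd.intro_left _ rfl
      exact_mod_cast h6
    · exact ⟨(i : ℤ) - z, by rw [h3]; exact hi⟩

end Pool.Agent.W423.NI.Root
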