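import Pool.Agent.W423.NI.Fin
import Pool.Agent.W423.NI.Root
import Pool.Agent.W150.NI.Cay
import Pool.Agent.W864.NI.NonT
import Pool.Agent.W308.NI.Unm

/-!
# Project NI: assembly
-/

set_option autoImplicit false

namespace Pool.Agent.W423.NI

open MvPolynomial
open Pool.Agent.W428.MOT Pool.Agent.W749.NM Pool.Agent.W749.JI
open Pool.Agent.W426.SM (AffInd gord ford IsRay face ff)

theorem vert {n k r : ℕ} (π : Fin k → Fin r) (m : Fin k → Fin n → ℕ) (c : Fin k → ℂ)
    (hnd : NondegI π m c) : Fin.Vert π m c := by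
  classical
  intro u N j hj huniq hc
  have hmin : ∀ j', π j' = π j → ∑ v, u v * m j v ≤ ∑ v, u v * m j' v := by
    intro j' hj'
    have h1 := ((StI.mem_tau π m u N j).1 hj).2
    rw [h1, ← hj']
    exact StI.ordI_le π m u j'
  have hcast : ∀ j' : Fin k, ((∑ v, u v * m j' v : ℕ) : ℝ) = ∑ v, (u v : ℝ) * (m j' v : ℝ) := by
    intro j'
    push_cast
    rfl
  have hface : ∀ j' : Fin k, (π j' = π j ∧ onFaceI π m (fun v => (u v : ℝ)) j') → c j' = 0 := by
    rintro j' ⟨h1, h2⟩
    have h3 : ∑ v, u v * m j' v ≤ ∑ v, u v * m j v := by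
      have := h2 j h1.symm
      rw [← hcast, ← hcast] at this
      exact_mod_cast this
    have h4 : ∑ v, u v * m j' v = ordI π m u (π j') := by
      rw [h1]
      have h5 := ((StI.mem_tau π m u N j).1 hj).2
      have h6 := hmin j' h1
      omega
    have h7 : j' ∈ tau π m u N := by
      rw [StI.mem_tau, h4]
      refine ⟨?_, rfl⟩
      rw [h1]
      exact ((StI.mem_tau π m u N j).1 hj).1
    rw [huniq j' h7 h1]
    exact hc
  refine hnd (fun v => (u v : ℝ)) {π j} (fun _ => 1) (fun _ => 1) (Finset.singleton_nonempty _)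
    (fun _ => one_ne_zero) (fun _ _ => one_ne_zero) ?_ ?_
  · intro i hi
    rw [Finset.mem_singleton] at hi
    subst hi
    refine Finset.sum_eq_zero fun j' _ => ?_
    split_ifs with h
    · rw [hface j' h, zero_mul]
    · rfl
  · intro v
    rw [Finset.sum_singleton, one_mul]
    refine Finset.sum_eq_zero fun j' _ => ?_
    split_ifs with h
    · rw [hface j' h, zero_mul, zero_mul]
    · rfl

theorem cay_inj {n k r : ℕ} (π : Fin k → Fin r) (m : Fin k → Fin n → ℕ)
    (hinj : ∀ j j', π j = π j' → m j = m j' → j = j') : Function.Injective (cay π m) := by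
  intro j j' h
  apply hinj
  · have h1 := congrFun h (Fin.natAdd n (π j))
    rw [RootG.cay_right, RootG.cay_right, if_pos rfl] at h1
    by_contra hne
    rw [if_neg (Ne.symm hne)] at h1
    exact one_ne_zero h1
  · funext v
    have h1 := congrFun h (Fin.castAdd r v)
    rw [RootG.cay_left, RootG.cay_left] at h1
    exact h1

/-- **Main theorem.** -/
theorem final {n k r : ℕ} (π : Fin k → Fin r) (m : Fin k → Fin n → ℕ) (c : Fin k → ℂ)
    (hr : 0 < r) (hπ : Function.Surjective π) (hinj : ∀ j j', π j = π j' → m j = m j' → j = j')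
    (hnd : NondegI π m c) (hB : NoB1I π m ∨ (SameExp π m ∧ ∀ j v, m j v ≠ 1)) :
    ∃ S : Finset (ℤ × ℤ),
      (∀ p ∈ S, p.1 < 0 ∧ 0 < p.2 ∧ (p.2 ∣ p.1 ∨ ∀ b : Polynomial ℂ,
        IsLocalBIdeal (fam π m c) b → ∃ i : ℤ, b.eval ((p.1 : ℂ) / p.2 - i) = 0)) ∧
      zetaI (fam π m c) ∈ ratRing ℂ S := by
  classical
  have hk : 0 < k := by
    obtain ⟨j, -⟩ := hπ ⟨0, hr⟩
    exact lt_of_le_of_lt (Nat.zero_le _) j.2
  have hB' : NoB1I π m := by
    rcases hB with h | ⟨h1, h2⟩
    · exact h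
    · exact Pool.Agent.W308.NI.unm π m hk hπ h1 h2
  obtain ⟨S, hS, hz⟩ := Fin.main Pool.Agent.W417.MT.K0.main
    (Pool.Agent.W806.JIJetI.main Pool.Agent.W417.MT.Free.main) Pool.Agent.W806.JIPart.main
    Pool.Agent.W806.JICondI.main Pool.Agent.W417.MT.Free.main Pool.Agent.W417.MT.Tay.main
    sLin Pool.Agent.W358.JI.main sCPE sRAT2 Pool.Agent.W346.MTCp1.main π m c hr hπ
    (Pool.Agent.W864.NI.nonT π m c hnd) (vert π m c hnd)
    {p | p.1 < 0 ∧ 0 < p.2 ∧ (p.2 ∣ p.1 ∨ ∀ b : Polynomial ℂ,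
        IsLocalBIdeal (fam π m c) b → ∃ i : ℤ, b.eval ((p.1 : ℂ) / p.2 - i) = 0)} (by
      intro a ha hg h2
      have hpos : 0 < ∑ i, a i := by
        by_contra hcon
        refine ha.1 (funext fun i => ?_)
        exact Finset.sum_eq_zero_iff.1 (Nat.eq_zero_of_not_pos hcon) i (Finset.mem_univ i)
      refine ⟨?_, Int.natCast_pos.2 hg, ?_⟩
      · simp only [Left.neg_neg_iff]
        exact_mod_cast hpos
      · exact Root.root π m c hk (cay_inj π m hinj) (Pool.Agent.W150.NI.cay π m c hk hnd) hB' a ha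
          hg h2)
  exact ⟨S, hS, hz⟩

end Pool.Agent.W423.NI
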