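import Pool.Agent.W423.NI.Defs
import Pool.Agent.W749.JI.StI

/-!
# Project NI, part STI: the class of a stratum (after `Pool.Agent.W749.JI.StI`)
-/

set_option autoImplicit false

namespace Pool.Agent.W423.NI.StI

open Pool.Agent.W428.MOT Pool.Agent.W749.MT Pool.Agent.W749.NM Pool.Agent.W749.JI
open Pool.Agent.W749.JI.StI Pool.Agent.W423.NI
open Pool.Agent.W426.SM (AffInd gord ford)

variable {K : Type} [Field K] {n k r : ℕ} {R : Type} [CommRing R]

theorem step [CharZero K] (h2 : S_Tay) (h3 : S_Lin) (M : Meas K R)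
    (π : Fin k → Fin r) (hπ : Function.Surjective π) (m : Fin k → Fin n → ℕ) (c : Fin k → K)
    (hT : NonT π m c) (N : ℕ) (u : Fin n → ℕ) (s : ℕ) (hs : 1 ≤ s)
    (hsN : s < N) :
    M.χ _ (Y0 (fun _ => (0 : K)) N u ∩ W π m c u N (s + 1)) * M.L ^ (lev π m u N s).card =
      M.χ _ (Y0 (fun _ => (0 : K)) N u ∩ W π m c u N s) := by
  classical
  have hsN' : s < 2 * N + 1 + 1 := by omega
  set τ := tau π m u N with hτ
  set δ := delI π m u with hδ
  set V : Finset (Fin n) := Finset.univ.filter fun v => v ∉ fr m τ with hV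
  have hmV : ∀ v, v ∈ V ↔ v ∉ fr m τ := fun v => by simp [hV]
  set s' : Fin (2 * N + 1 + 1) := ⟨s, hsN'⟩ with hs'
  have hinj : Function.Injective (fun v : Fin n => (v, s')) := fun a b h => (Prod.mk.inj h).1
  set C : Finset (Fin n × Fin (2 * N + 1 + 1)) := V.image (fun v => (v, s')) with hC
  have hmC : ∀ p, p ∈ C ↔ p.1 ∈ V ∧ (p.2 : ℕ) = s := by
    intro p
    rw [hC, Finset.mem_image]
    constructor
    · rintro ⟨v, hv, rfl⟩
      exact ⟨hv, rfl⟩
    · rintro ⟨h5, h6⟩
      exact ⟨p.1, h5, Prod.ext rfl (Fin.ext h6.symm)⟩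
  set E := (lev π m u N s).equivFin with hE
  set ix : Fin (lev π m u N s).card → Fin r := fun p => (E.symm p).1 with hix
  have hixm : ∀ p, ordI π m u (ix p) + s < N := fun p => (mem_lev π m u N s _).1 (E.symm p).2
  have hixl : ∀ p, ix p ∈ low π m u N := fun p => (mem_low π m u N _).2 (by
    have := hixm p
    omega)
  have hixi : Function.Injective ix := fun a b h => E.symm.injective (Subtype.ext h)
  set S := Y0 (fun _ => (0 : K)) N u ∩ W π m c u N s with hS
  set D : Fin (lev π m u N s).card → (Fin n × Fin (2 * N + 1 + 1)) →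
      Pt K (Fin n × Fin (2 * N + 1 + 1)) → AlgebraicClosure K :=
    fun p q y => dgbar m (cI π (cb c) (ix p)) τ q.1 (fun i => y (i, 0)) with hD
  set H : Fin (lev π m u N s).card → Pt K (Fin n × Fin (2 * N + 1 + 1)) → AlgebraicClosure K :=
    fun p y => PowerSeries.coeff s (gser m (cI π (cb c) (ix p)) δ (arc (zr V s y))) with hH
  have hu : ∀ v ∈ V, u v ≤ N := fun v hv => (le_of_not_fr π m u N v ((hmV v).1 hv)).le
  have hagree0 : ∀ z w : Pt K (Fin n × Fin (2 * N + 1 + 1)), (∀ i, i ∉ C → w i = z i) →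
      ∀ v, w (v, 0) = z (v, 0) := by
    intro z w h v
    refine h _ fun hc => ?_
    have h5 : ((0 : Fin (2 * N + 1 + 1)) : ℕ) = s := ((hmC _).1 hc).2
    have h6 : ((0 : Fin (2 * N + 1 + 1)) : ℕ) = 0 := rfl
    omega
  have key := h3 M C (lev π m u N s).card S D H
    ((constr_Y0 _ N u).inter (constr_W π m c u N s)) ?_ ?_ ?_ ?_
  · rw [← key]
    congr 2
    ext y
    have h5 : ∀ p, PowerSeries.coeff s (gser m (cI π (cb c) (ix p)) δ (arc y)) =
        ∑ q ∈ C, D p q y * y q + H p y := by
      intro p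
      rw [taylor h2 m (cI π (cb c) (ix p)) δ s hs hsN' V y, hC,
        Finset.sum_image (fun a _ b _ h => hinj h)]
      congr 1
      refine Finset.sum_congr rfl fun v _ => ?_
      congr 1
      exact dgbar_cI π m (cb c) (ix p) _ _
        (fun j hj => mem_tau_iff π m u N (ix p) (hixl p) j hj) v _
    constructor
    · rintro ⟨h6, h7⟩
      refine ⟨⟨h6, fun i q hq hqs => h7 i q hq (by omega)⟩, fun p => ?_⟩
      rw [← h5]
      exact h7 (ix p) s (hixm p) (by omega)
    · rintro ⟨⟨h6, h7⟩, h8⟩
      refine ⟨h6, fun i q hq hqs => ?_⟩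
      rcases Nat.lt_or_ge q s with h9 | h9
      · exact h7 i q hq h9
      · have h10 : q = s := by omega
        subst h10
        have h11 : ix (E ⟨i, (mem_lev π m u N q i).2 hq⟩) = i := by
          simp only [hix, Equiv.symm_apply_apply]
        have h12 := h8 (E ⟨i, (mem_lev π m u N q i).2 hq⟩)
        rw [← h5, h11] at h12
        exact h12
  · intro p q
    simp only [hD]
    rw [cI_cb]
    exact IsPF_dgbar m (cI π c (ix p)) τ q.1 (fun i => (i, 0))
  · intro p
    simp only [hH]
    rw [cI_cb]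
    refine (IsPA_gser m (cI π c (ix p)) δ s).comp (fun y => zr V s y) fun q => ?_
    unfold zr
    by_cases h : q.1 ∈ V ∧ (q.2 : ℕ) = s
    · simp only [if_pos h]
      exact IsPF.zero
    · simp only [if_neg h]
      exact IsPF.coord q
  · intro z w hzw
    have h0 := hagree0 z w hzw
    have hlow : ∀ v q, q < s → PowerSeries.coeff q (arc w v) = PowerSeries.coeff q (arc z v) := by
      intro v q hq
      rw [coeff_arc _ _ _ (show q < 2 * N + 1 + 1 by omega),
        coeff_arc _ _ _ (show q < 2 * N + 1 + 1 by omega)]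
      refine hzw _ fun hc => ?_
      have := ((hmC _).1 hc).2
      simp only at this
      omega
    refine ⟨?_, ?_, ?_⟩
    · rintro ⟨⟨h5, h6, h7⟩, h8⟩
      refine ⟨⟨fun v j hj => ?_, fun v hv => ?_, fun v hv => absurd rfl hv⟩, fun i q hq hqs => ?_⟩
      · rw [hzw _ fun hc => ?_]
        · exact h5 v j hj
        · obtain ⟨h9, h10⟩ := (hmC _).1 hc
          have h11 := hu v h9
          simp only at h10
          omega
      · rw [h0]
        exact h6 v hv
      · rw [← h8 i q hq hqs]
        refine (h2 m (cI π (cb c) i) δ (arc z)).2.1 q _ (fun v q' hq' => ?_) q le_rfl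
        exact hlow v q' (by omega)
    · intro p q
      simp only [hD]
      congr 1
      funext v
      exact h0 v
    · intro p
      simp only [hH]
      have h5 : zr V s w = zr V s z := by
        funext q
        unfold zr
        by_cases h : q.1 ∈ V ∧ (q.2 : ℕ) = s
        · rw [if_pos h, if_pos h]
        · rw [if_neg h, if_neg h]
          exact hzw q fun hc => h ((hmC q).1 hc)
      rw [h5]
  · rintro z ⟨⟨h5, h6, h7⟩, h8⟩ l hl p
    have h9 := hT u N (fun v => z (v, 0)) ?_ ?_
      (fun i => if h : i ∈ lev π m u N s then l (E ⟨i, h⟩) else 0) ?_ ?_ (ix p)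
    · have h10 : ix p ∈ lev π m u N s := (E.symm p).2
      rw [dif_pos h10] at h9
      have h11 : E ⟨ix p, h10⟩ = p := by
        simp only [hix, Subtype.coe_eta, Equiv.apply_symm_apply]
      rw [h11] at h9
      exact h9
    · rintro v ⟨j, hj, hm⟩
      refine h6 v (hu v ((hmV v).2 fun hcf => ?_))
      exact hm ((mem_fr m τ v).1 hcf j hj)
    · intro i hi
      rw [image_tau π hπ m u N] at hi
      have h9 := h8 i 0 (by rw [add_zero]; exact (mem_low π m u N i).1 hi) (by omega)
      rw [(h2 m (cI π (cb c) i) δ (arc z)).1] at h9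
      simp only [constantCoeff_arc] at h9
      rw [gbar_cI π m (cb c) i _ _ (fun j hj => mem_tau_iff π m u N i hi j hj)] at h9
      exact h9
    · intro i hi
      rw [image_tau π hπ m u N, mem_low] at hi
      rw [dif_neg]
      intro h
      have := (mem_lev π m u N s i).1 h
      omega
    · intro v
      by_cases hv : v ∈ V
      · have h9 := hl (v, s') (Finset.mem_image_of_mem _ hv)
        simp only [hD] at h9
        refine Eq.trans ?_ h9
        rw [← Finset.sum_subset (Finset.subset_univ (lev π m u N s))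
          (fun i _ hi => by rw [dif_neg hi, zero_mul]), ← Finset.sum_coe_sort (lev π m u N s),
          ← Equiv.sum_comp E.symm]
        refine Finset.sum_congr rfl fun q _ => ?_
        have h11 : (E.symm q).1 ∈ lev π m u N s := (E.symm q).2
        rw [dif_pos h11]
        have h12 : E ⟨((E.symm q).1 : Fin r), h11⟩ = q := by
          rw [Subtype.coe_eta, Equiv.apply_symm_apply]
        rw [h12]
      · refine Finset.sum_eq_zero fun i _ => ?_
        rw [dgbar_zero m _ τ v _ ?_, mul_zero]
        intro j hj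
        by_contra hm
        apply hv
        rw [hmV, mem_fr]
        intro hcf
        exact hm (hcf j hj)

theorem steps [CharZero K] (h2 : S_Tay) (h3 : S_Lin) (M : Meas K R)
    (π : Fin k → Fin r) (hπ : Function.Surjective π) (m : Fin k → Fin n → ℕ) (c : Fin k → K)
    (hT : NonT π m c) (N : ℕ) (u : Fin n → ℕ) (s : ℕ) (hsN : s < N) :
    M.χ _ (Y0 (fun _ => (0 : K)) N u ∩ W π m c u N (s + 1)) *
        M.L ^ (∑ q ∈ Finset.range s, (lev π m u N (q + 1)).card) =
      M.χ _ (Y0 (fun _ => (0 : K)) N u ∩ W π m c u N 1) := by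
  induction s with
  | zero => simp
  | succ s ih =>
    rw [Finset.sum_range_succ, pow_add, mul_comm (M.L ^ _) (M.L ^ _), ← mul_assoc,
      step h2 h3 M π hπ m c hT N u (s + 1) (by omega) hsN]
    exact ih (by omega)

/-- (STI) the class of a stratum -/
theorem main (h1 : S_Free) (h2 : S_Tay) (h3 : S_Lin) {K : Type} [Field K] [CharZero K] {R : Type}
    [CommRing R] (M : Meas K R) {n k r : ℕ} (π : Fin k → Fin r) (m : Fin k → Fin n → ℕ)
    (c : Fin k → K) (hπ : Function.Surjective π) (hT : NonT π m c) (N : ℕ) (hN : 1 ≤ N)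
    (u : Fin n → ℕ) :
    M.χ _ (Y0 (fun _ => (0 : K)) N u ∩ {y | ∀ i q, ordI π m u i + q < N →
        PowerSeries.coeff q (gser m (cI π (cb c) i) (delI π m u) (arc y)) = 0}) *
        M.L ^ (∑ i ∈ low π m u N, (N - 1 - ordI π m u i)) =
      M.χ _ (BI π m c (low π m u N) (tau π m u N)) *
        (M.L - 1) ^ ((fr m (tau π m u N)).filter fun v => u v ≤ N).card *
        M.L ^ ((fr m (tau π m u N)).filter fun v => ¬ u v ≤ N).card *
        M.L ^ (∑ v, (2 * N + 1 - u v)) := by
  classical
  rw [← base h1 h2 M π m c N u, ← steps h2 h3 M π hπ m c hT N u (N - 1) (by omega),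
    sum_lev π m u N]
  congr 3
  ext y
  simp only [W, Set.mem_ofPred_eq]
  constructor
  · intro h i q hq _
    exact h i q hq
  · intro h i q hq
    exact h i q hq (by omega)

end Pool.Agent.W423.NI.StI
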